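import Pool.Agent.H85.SC.Targets

/-! modules LAB FIN LOC CON SGV RLS of MP_de9001_an -/

open Filter Topology

namespace Pool.Agent.H41.SC

open Pool.Agent.H85.SC Pool.Agent.H87.Synth

lemma chi_sign {m j : ℕ} {z : ℤ} (h : chi m j z ≠ 0) : chi m j z = 1 ∨ chi m j z = -1 := by
  unfold chi at h ⊢
  refine legendreSym.eq_one_or_neg_one (pr m j) ?_
  intro h0
  exact h ((legendreSym.eq_zero_iff (pr m j) z).2 h0)

lemma labAt_sg {S : Set ℕ} {n i : ℕ} {z w : ℤ} (h : labAt S n i z = Lab.sg w) : z = w := by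
  unfold labAt at h
  split_ifs at h
  exact Lab.sg.inj h

/-- module LAB -/
theorem labm (hU : T_UNQ) : T_LAB := by
  classical
  refine ⟨?_, ?_, ?_, ?_, ?_, ?_⟩
  · intro S n i z hn hr
    have hex : ∃ p : ℕ × ℕ, p.1 ∈ S ∧ Reg p.1 p.2 z := ⟨(n, i), hn, hr⟩
    unfold lab
    rw [dif_pos hex]
    obtain ⟨h1, h2⟩ := hU _ _ _ _ z hex.choose_spec.2 hr
    rw [h1, h2]
  · intro S z h
    unfold lab
    rw [dif_neg]
    rintro ⟨p, hp1, hp2⟩
    exact h _ _ hp1 hp2
  · intro S z w h
    unfold lab at h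
    split_ifs at h with hex
    · exact labAt_sg h
    · exact Lab.sg.inj h
  · intro S n i z hn hr
    have hex : ∃ p : ℕ × ℕ, p.1 ∈ S ∧ Reg p.1 p.2 z := ⟨(n, i), hn, hr⟩
    unfold GG
    rw [dif_pos hex]
    obtain ⟨h1, h2⟩ := hU _ _ _ _ z hex.choose_spec.2 hr
    rw [h1, h2]
  · intro S z h
    unfold GG
    rw [dif_neg]
    rintro ⟨p, hp1, hp2⟩
    exact h _ _ hp1 hp2
  · intro n i z hr
    obtain ⟨_, _, _, _, h0, h1, h2⟩ := hr
    refine ⟨chi_sign h0, chi_sign h1, ?_⟩
    unfold s3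
    rcases neg_one_pow_eq_or ℤ (lg i) with h3 | h3 <;> rcases chi_sign h2 with h4 | h4 <;>
      rw [h3, h4] <;> simp

lemma rel_iff (S : Set ℕ) (m n : ℤ) : rel S m n ↔ lab S m = lab S n := Iff.rfl

/-- module FIN -/
theorem finm (hF : T_FIB) (hL : T_LAB) : T_FIN := by
  intro S hS n
  obtain ⟨f1, f2, f3⟩ := hF S hS
  have key : ∀ L : Lab, {m | lab S m = L}.Finite := by
    intro L
    cases L with
    | sg w =>
      refine (Set.finite_singleton w).subset ?_
      intro m hm
      exact hL.2.2.1 S m w hm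
    | inn n i s =>
      refine ((FA n i s ∪ EM n i s : Finset ℤ).finite_toSet).subset ?_
      intro m hm
      have := ((f1 n i s m).1 hm).2.2.2
      exact Finset.mem_coe.2 (Finset.mem_union.2 this)
    | lst n i =>
      refine ((FS n i 1 ∪ FS n i (-1) : Finset ℤ).finite_toSet).subset ?_
      intro m hm
      have := ((f2 n i m).1 hm).2.2
      exact Finset.mem_coe.2 (Finset.mem_union.2 this)
    | ldr n i =>
      refine ((FD n i 1 ∪ FD n i (-1) : Finset ℤ).finite_toSet).subset ?_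
      intro m hm
      have := ((f3 n i m).1 hm).2.2.2.2
      exact Finset.mem_coe.2 (Finset.mem_union.2 this)
  refine (key (lab S n)).subset ?_
  intro m hm
  exact ((rel_iff S n m).1 hm).symm

lemma lab_local (hU : T_UNQ) (hL : T_LAB) (z : ℤ) : ∃ F : Finset ℕ, ∀ S S' : Set ℕ,
    (∀ k ∈ F, k ∈ S ↔ k ∈ S') → lab S z = lab S' z := by
  classical
  by_cases hex : ∃ n i, Reg n i z
  · obtain ⟨n, i, hr⟩ := hex
    refine ⟨{n, n + 2 ^ lg i}, fun S S' h => ?_⟩
    have h1 : n ∈ S ↔ n ∈ S' := h n (by simp)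
    have h2 : n + 2 ^ lg i ∈ S ↔ n + 2 ^ lg i ∈ S' := h _ (by simp)
    by_cases hn : n ∈ S
    · rw [hL.1 S n i z hn hr, hL.1 S' n i z (h1.1 hn) hr]
      unfold labAt
      simp only [h2]
    · have hn' : n ∉ S' := fun h => hn (h1.2 h)
      have e : ∀ T : Set ℕ, n ∉ T → lab T z = Lab.sg z := by
        intro T hT
        refine hL.2.1 T z fun n' i' hn' hr' => ?_
        obtain ⟨h3, _⟩ := hU n i n' i' z hr hr'
        exact hT (h3 ▸ hn')
      rw [e S hn, e S' hn']
  · refine ⟨∅, fun S S' _ => ?_⟩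
    have e : ∀ T : Set ℕ, lab T z = Lab.sg z := fun T =>
      hL.2.1 T z fun n' i' _ hr' => hex ⟨n', i', hr'⟩
    rw [e S, e S']

/-- module LOC -/
theorem locm (hU : T_UNQ) (hL : T_LAB) : T_LOC := by
  classical
  intro m n
  obtain ⟨F, hF⟩ := lab_local hU hL m
  obtain ⟨F', hF'⟩ := lab_local hU hL n
  refine ⟨F ∪ F', fun S S' h => ?_⟩
  rw [rel_iff, rel_iff, hF S S' fun k hk => h k (Finset.mem_union_left _ hk),
    hF' S S' fun k hk => h k (Finset.mem_union_right _ hk)]

/-- module CON -/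
theorem conm (hLoc : T_LOC) : T_CON := by
  classical
  refine continuous_pi fun m => continuous_pi fun n => ?_
  obtain ⟨F, hF⟩ := hLoc m n
  rw [continuous_iff_continuousAt]
  intro T0
  have hU : {T : List ℕ → Bool | ∀ k ∈ F, ∀ j ∈ Finset.range ((dec k).length + 1),
      T ((dec k).take j) = T0 ((dec k).take j)} ∈ 𝓝 T0 := by
    have hopen : IsOpen {T : List ℕ → Bool | ∀ k ∈ F, ∀ j ∈ Finset.range ((dec k).length + 1),
        T ((dec k).take j) = T0 ((dec k).take j)} := by
      have e : {T : List ℕ → Bool | ∀ k ∈ F, ∀ j ∈ Finset.range ((dec k).length + 1),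
          T ((dec k).take j) = T0 ((dec k).take j)}
          = ⋂ k ∈ F, ⋂ j ∈ Finset.range ((dec k).length + 1),
            (fun T : List ℕ → Bool => T ((dec k).take j)) ⁻¹' {T0 ((dec k).take j)} := by
        ext T
        simp only [Set.mem_ofPred_eq, Set.mem_iInter, Set.mem_preimage, Set.mem_singleton_iff]
      rw [e]
      refine isOpen_biInter_finset fun k _ => isOpen_biInter_finset fun j _ => ?_
      exact (isOpen_discrete _).preimage (continuous_apply _)
    exact hopen.mem_nhds fun k _ j _ => rfl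
  refine continuousAt_const.congr (f := fun _ => relB (Pool.Agent.H85.SC.ST T0) m n) ?_
  filter_upwards [hU] with T hT
  have h1 : ∀ k ∈ F, k ∈ Pool.Agent.H85.SC.ST T0 ↔ k ∈ Pool.Agent.H85.SC.ST T := by
    intro k hk
    unfold Pool.Agent.H85.SC.ST
    simp only [Set.mem_ofPred_eq]
    constructor
    · rintro (h | h)
      · exact Or.inl h
      · exact Or.inr fun j hj => by
          rw [hT k hk j (Finset.mem_range.2 (by omega))]
          exact h j hj
    · rintro (h | h)
      · exact Or.inl h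
      · exact Or.inr fun j hj => by
          rw [← hT k hk j (Finset.mem_range.2 (by omega))]
          exact h j hj
  have h2 := hF (Pool.Agent.H85.SC.ST T0) (Pool.Agent.H85.SC.ST T) h1
  unfold relB
  simp only [h2]

lemma eS_singleton (z : ℤ) : eS {z} = ex z := by
  simp [eS]

lemma kill_sg (hL : T_LAB) {S : Set ℕ} {Λ : L1 →L[ℂ] ℂ} (hK : Kil S Λ) {z : ℤ}
    (hz : lab S z = Lab.sg z) : Λ (ex z) = 0 := by
  rw [← eS_singleton]
  refine hK {z} z fun w => ?_
  rw [Finset.mem_singleton, rel_iff, hz]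
  constructor
  · rintro rfl
    exact hz.symm
  · intro h
    exact hL.2.2.1 S w z h.symm

/-- module SGV -/
theorem sgvm (hL : T_LAB) : T_SGV := by
  intro S _ Λ hK x hx
  have h1 : ∀ z, coeff x z * Λ (ex z) = 0 := by
    intro z
    by_cases hz : lab S z = Lab.sg z
    · rw [kill_sg hL hK hz, mul_zero]
    · rw [hx z hz, zero_mul]
  have h2 : ∀ N : ℕ, Λ (fejer N x) = 0 := by
    intro N
    rw [fejer_eq, map_smul, map_sum]
    simp only [map_sum, map_smul, smul_eq_mul, h1, Finset.sum_const_zero, mul_zero]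
  have h3 := (Λ.continuous.tendsto x).comp (tendsto_fejer x)
  have h4 : Tendsto (fun N : ℕ => Λ (fejer N x)) atTop (𝓝 (Λ x)) := h3
  simp only [h2] at h4
  exact (tendsto_nhds_unique h4 tendsto_const_nhds)

/-- module RLS -/
theorem rlsm (hF : T_FIB) (hD : T_DSJ) (hL : T_LAB) : T_RLS := by
  classical
  intro S hS Λ f hK hf
  obtain ⟨f1, f2, f3⟩ := hF S hS
  have key : ∀ (C : Finset ℤ) (L : Lab), (∀ w, lab S w = L ↔ w ∈ C) →
      ∑ w ∈ C, coeff f w * Λ (ex w) = 0 := by
    intro C L hC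
    rcases C.eq_empty_or_nonempty with h | ⟨z0, hz0⟩
    · rw [h, Finset.sum_empty]
    · have hz : lab S z0 = L := (hC z0).2 hz0
      have hrel : ∀ w, w ∈ C ↔ rel S z0 w := by
        intro w
        rw [rel_iff, hz, ← hC w]
        exact eq_comm
      have h1 : ∀ w ∈ C, coeff f w * Λ (ex w) = coeff f z0 * Λ (ex w) := by
        intro w hw
        rw [mem_Amax.1 hf z0 w ((hrel w).1 hw)]
      rw [Finset.sum_congr rfl h1, ← Finset.mul_sum, ← map_sum]
      have h2 := hK C z0 hrel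
      unfold eS at h2
      rw [h2, mul_zero]
  refine ⟨?_, ?_, ?_, ?_⟩
  · intro z hz
    change coeff f z * Λ (ex z) = 0
    rw [kill_sg hL hK hz, mul_zero]
  · intro n i s hn hv hi _
    rw [← Finset.sum_union (hD.1 n i s hv hi)]
    refine key _ (Lab.inn n i s) fun w => ?_
    rw [f1, Finset.mem_union]
    exact ⟨fun h => h.2.2.2, fun h => ⟨hn, hv, hi, h⟩⟩
  · intro n i hn hv hi
    unfold gS
    rw [← Finset.sum_union (hD.2.1 n i).2.1]
    refine key _ (Lab.lst n i) fun w => ?_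
    rw [f2, Finset.mem_union]
    exact ⟨fun h => h.2.2, fun h => ⟨hn, hi, h⟩⟩
  · intro n i hn hv hi hnS
    unfold gD
    rw [← Finset.sum_union (hD.2.1 n i).2.2]
    refine key _ (Lab.ldr n i) fun w => ?_
    rw [f3, Finset.mem_union]
    exact ⟨fun h => h.2.2.2.2, fun h => ⟨hn, hv, hi, hnS, h⟩⟩

end Pool.Agent.H41.SC
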